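import Pool.Agent.W399.WP.GStm

/-!
Project WP, part GRAW (helper797)
-/

set_option autoImplicit false

namespace Pool.Agent.W797.WP399

open Pool.Agent.W399.WP Pool.Agent.H966R2.CF

/-- uniqueness of the decomposition at the separator -/
theorem sep_inj {A : Type} (u u' : List A) (x y : List (Option A))
    (h : u.map some ++ none :: x = u'.map some ++ none :: y) : u = u' ∧ x = y := by
  induction u generalizing u' with
  | nil =>
    cases u' with
    | nil => simpa using h
    | cons b u' => simp at h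
  | cons a u ih =>
    cases u' with
    | nil => simp at h
    | cons b u' =>
      simp only [List.map_cons, List.cons_append, List.cons.injEq, Option.some.injEq] at h
      obtain ⟨h1, h2⟩ := ih u' h.2
      exact ⟨by rw [h.1, h1], h2⟩

theorem graw (h1 : S_GFIN) (h2 : S_GU) (h3 : S_GV) (h4 : S_GW) : S_GRAW := by
  intro M _ A φ hcf
  obtain ⟨g, hg⟩ := hcf
  have hst : st g ∈ Forms g := Or.inl (List.suffix_refl _)
  have hctx : HasCtx g (st g) := ⟨[], [], fun _ _ h => h⟩
  have hfin := h1 M inferInstance A φ g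
  have hi : ∀ u v : List A, (u, v) ∈ CG g (st g) ↔ (u ≠ [] ∧ v ≠ [] ∧ pr φ u = pr φ v) := by
    intro u v
    have e1 : (u, v) ∈ CG g (st g) ↔ (u.map some ++ none :: v.reverse.map some) ∈ g.language := by
      constructor
      · intro h
        exact D.derives h
      · intro h
        exact D.of_derives h
    rw [e1, hg]
    constructor
    · rintro ⟨u', v', hu, hv, hp, he⟩
      obtain ⟨e2, e3⟩ := sep_inj _ _ _ _ he
      have e4 : v = v' := by
        have := List.map_injective_iff.mpr (Option.some_injective A) e3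
        exact List.reverse_injective this
      rw [e2, e4]
      exact ⟨hu, hv, hp⟩
    · rintro ⟨hu, hv, hp⟩
      exact ⟨u, v, hu, hv, hp, rfl⟩
  exact ⟨{
    X := {α // α ∈ Forms g}
    finX := hfin.1.to_subtype
    C := fun x => CG g x.1
    i := ⟨st g, hst⟩
    hi := hi
    E := EG g φ
    finE := hfin.2
    uside := by
      rintro ⟨x, hx⟩ U₁ U₂ V ⟨a, v, hav⟩ hU
      obtain ⟨y, hy, a', b₁, b₂, c, v₁, v₂, e1, e2, e3, e4, e5, e6⟩ :=
        h2 M inferInstance A φ g hg x hx ⟨a, v, hav⟩ U₁ U₂ V hU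
      exact ⟨⟨y, hy⟩, a', b₁, b₂, c, v₁, v₂, e1, e2, e3, e4, e5, e6⟩
    vside := by
      intro u v₁ v₂ hu
      obtain ⟨y, hy, a₁, a₂, h, d₁, d₂, c, e1, e2, e3, e4, e5, e6⟩ :=
        h3 M inferInstance A φ g hg (st g) hst hctx u v₁ v₂ hu
      exact ⟨⟨y, hy⟩, a₁, a₂, h, d₁, d₂, c, e1, e2, e3, e4, e5, e6⟩
    awin := by
      intro k t s h m hk hE hm1 hm2
      rcases h4 M inferInstance A φ g hg (st g) hst hctx k t s h m hk hE hm1 hm2 with
        ⟨y, hy, k₁, k₂, s₂, s₁, e1, e2, e3, e4, e5⟩ | h5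
      · exact Or.inl ⟨⟨y, hy⟩, k₁, k₂, s₂, s₁, e1, e2, e3, e4, e5⟩
      · exact Or.inr h5 }⟩

end Pool.Agent.W797.WP399
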